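import Pool.Agent.MVO.StmtsV

/-!
# MVO, row FV6
-/

namespace Pool.Agent.MVO.H25

open Pool.Agent.Helper14_MV Pool.Agent.Helper2_MV Pool.Agent.MVO

/-- type change of the first letter -/
theorem fv6_tc {ρ : FIC} {k : ℕ} {a a' : ℕ → ℕ} (h : L1 ρ k a a') (b : ℕ → ℕ) (e : ℕ → Bool) :
    RR ρ (w2 k a b e) (w2 k a' b e) := by
  have h1 := rr_ins' ρ (fun j => if e j then List.replicate (b j) 1 else [])
    (fun j => if e j then [] else List.replicate (b j) 1) (blkOk_mw k a) (blkOk_mw k a') h
  have e1 : ∀ c : ℕ → ℕ, asm k (fun j => (if e j then List.replicate (b j) 1 else []) ++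
      List.replicate (c j) 0 ++ (if e j then [] else List.replicate (b j) 1)) = w2 k c b e := by
    intro c
    unfold w2
    apply asm_congr
    intro j _
    unfold bl
    cases e j <;> simp
  rw [e1, e1] at h1
  exact h1

/-- the vector with the entries `i`, `i + 1` joined -/
def fv6_st (i : ℕ) (c : ℕ → ℕ) : ℕ → ℕ :=
  fun j => if j < i then c j else if j = i then c i + c (i + 1) else c (j + 1)

theorem fv6_deg (i : ℕ) (c : ℕ → ℕ) (k : ℕ) (hk : i ≤ k) :
    deg k (fv6_st i c) = deg (k + 1) c := by
  induction k, hk using Nat.le_induction with
  | base =>
    unfold deg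
    rw [Finset.sum_range_succ, Finset.sum_range_succ _ (i + 1), Finset.sum_range_succ _ i]
    have h1 : ∑ x ∈ Finset.range i, fv6_st i c x = ∑ x ∈ Finset.range i, c x := by
      refine Finset.sum_congr rfl fun x hx => ?_
      rw [Finset.mem_range] at hx
      unfold fv6_st
      rw [if_pos hx]
    have h2 : fv6_st i c i = c i + c (i + 1) := by
      unfold fv6_st
      rw [if_neg (lt_irrefl i), if_pos rfl]
    rw [h1, h2]
    ring
  | succ m hm ih =>
    unfold deg at ih ⊢
    rw [Finset.sum_range_succ, ih, Finset.sum_range_succ _ (m + 1 + 1)]
    congr 1
    unfold fv6_st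
    rw [if_neg (by omega), if_neg (by omega)]

theorem fv6_bl_mem {p q c : ℕ} {e : Bool} (h : c ∈ bl p q e) : c = 0 ∨ c = 1 := by
  unfold bl at h
  cases e
  · simp only [Bool.false_eq_true, if_false, List.mem_append, List.mem_replicate] at h
    rcases h with h | h
    · exact Or.inl h.2
    · exact Or.inr h.2
  · simp only [if_true, List.mem_append, List.mem_replicate] at h
    rcases h with h | h
    · exact Or.inr h.2
    · exact Or.inl h.2

theorem fv6_bl_c0 (p q : ℕ) (e : Bool) : (bl p q e).count 0 = p := by
  unfold bl
  cases e <;> simp [List.count_replicate]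

theorem fv6_bl_c1 (p q : ℕ) (e : Bool) : (bl p q e).count 1 = q := by
  unfold bl
  cases e <;> simp [List.count_replicate]

theorem fv6_bl_last (p q : ℕ) (e : Bool) (hp : 0 ∈ bl p q e) (hq : 1 ∈ bl p q e) :
    (e = false ↔ (bl p q e).getLast? = some 1) := by
  have hp1 : p ≠ 0 := by
    intro h0
    have := List.count_pos_iff.mpr hp
    rw [fv6_bl_c0] at this
    omega
  have hq1 : q ≠ 0 := by
    intro h0
    have := List.count_pos_iff.mpr hq
    rw [fv6_bl_c1] at this
    omega
  obtain ⟨p', rfl⟩ := Nat.exists_eq_succ_of_ne_zero hp1
  obtain ⟨q', rfl⟩ := Nat.exists_eq_succ_of_ne_zero hq1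
  unfold bl
  cases e
  · simp only [Bool.false_eq_true, if_false, true_iff]
    rw [List.replicate_succ' (n := q'), ← List.append_assoc, List.getLast?_concat]
  · simp only [if_true]
    rw [List.replicate_succ' (n := p'), ← List.append_assoc, List.getLast?_concat]
    simp

theorem fv6 (hGLV : GlvStmt) (hMRG : MrgStmt) (_hFV1 : Fv1Stmt) : Fv6Stmt := by
  intro ρ hρ k i a a'' b hi hb ha ha'' hL hpos
  have hst : L1 ρ k a (fv6_st i a'') := by
    have h := hMRG ρ k i [] _ _ hi (blkOk_mw (k + 1) (spl i a)) (blkOk_mw (k + 1) a'') hL
    unfold L1 mw
    have e1 : asm k (mrg i [] (fun j => List.replicate (spl i a j) 0)) =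
        asm k (fun j => List.replicate (a j) 0) := by
      apply asm_congr
      intro j _
      unfold mrg spl
      by_cases h1 : j < i
      · have h2 : j ≤ i := by omega
        simp only [if_pos h1, if_pos h2]
      · by_cases h2 : j = i
        · subst h2
          simp
        · have h3 : ¬ j + 1 ≤ i := by omega
          have h4 : ¬ j + 1 = i + 1 := by omega
          simp only [if_neg h1, if_neg h2, if_neg h3, if_neg h4, Nat.add_sub_cancel]
    have e2 : asm k (mrg i [] (fun j => List.replicate (a'' j) 0)) =
        asm k (fun j => List.replicate (fv6_st i a'' j) 0) := by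
      apply asm_congr
      intro j _
      unfold mrg fv6_st
      by_cases h1 : j < i
      · rw [if_pos h1, if_pos h1]
      · rw [if_neg h1, if_neg h1]
        by_cases h2 : j = i
        · subst h2
          rw [if_pos rfl, if_pos rfl, List.append_nil, List.replicate_add]
        · rw [if_neg h2, if_neg h2]
    rw [e1, e2] at h
    exact h
  have key : ∀ e : ℕ → Bool, e i = false → Ex ρ k a b e i := by
    intro e he
    unfold Ex
    by_cases hbi : b i = 0
    · have hw : w2 k a b e = w2 k a b (flp e i) := by
        unfold w2
        apply asm_congr
        intro j _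
        by_cases hj : j = i
        · subst hj
          unfold bl
          rw [hbi]
          simp
        · unfold flp
          rw [if_neg hj]
      rw [← hw]
      exact RR.refl _
    · -- the inserted powers
      let P : ℕ → List ℕ := fun j => if j = i ∨ j = i + 1 then [] else
        if e (if j ≤ i then j else j - 1) then List.replicate (b (if j ≤ i then j else j - 1)) 1
        else []
      let Q : ℕ → List ℕ := fun j => if j = i ∨ j = i + 1 then [] else
        if e (if j ≤ i then j else j - 1) then []
        else List.replicate (b (if j ≤ i then j else j - 1)) 1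
      have h1 := rr_ins' ρ P Q (blkOk_mw (k + 1) (spl i a)) (blkOk_mw (k + 1) a'') hL
      have hmem : ∀ c : ℕ → ℕ, ∀ j, ∀ x ∈ P j ++ List.replicate (c j) 0 ++ Q j, x = 0 ∨ x = 1 := by
        intro c j x hx
        simp only [P, Q, List.mem_append] at hx
        rcases hx with (hx | hx) | hx
        · split_ifs at hx <;> first
            | exact Or.inr (List.eq_of_mem_replicate hx)
            | exact absurd hx List.not_mem_nil
        · exact Or.inl (List.eq_of_mem_replicate hx)
        · split_ifs at hx <;> first
            | exact Or.inr (List.eq_of_mem_replicate hx)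
            | exact absurd hx List.not_mem_nil
      have hok : ∀ c : ℕ → ℕ, BlkOk (k + 1) (fun j => P j ++ List.replicate (c j) 0 ++ Q j) := by
        intro c j _ x hx hs
        rcases hmem c j x hx with h | h <;> omega
      have h2 := hMRG ρ k i (List.replicate (b i) 1) _ _ hi (hok _) (hok _) h1
      -- the blocks of both words
      have hblk : ∀ c : ℕ → ℕ, ∀ j, j ≠ i →
          mrg i (List.replicate (b i) 1) (fun j => P j ++ List.replicate (c j) 0 ++ Q j) j =
            bl (if j < i then c j else c (j + 1)) (b j) (e j) := by
        intro c j hj
        unfold mrg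
        by_cases h1 : j < i
        · have h2 : ¬ (j = i ∨ j = i + 1) := by omega
          have h3 : j ≤ i := by omega
          simp only [P, Q, if_pos h1, if_neg h2, if_pos h3]
          unfold bl
          cases e j <;> simp
        · have h2 : ¬ (j + 1 = i ∨ j + 1 = i + 1) := by omega
          have h3 : ¬ j + 1 ≤ i := by omega
          simp only [P, Q, if_neg h1, if_neg hj, if_neg h2, if_neg h3, Nat.add_sub_cancel]
          unfold bl
          cases e j <;> simp
      have hblki : ∀ c : ℕ → ℕ,
          mrg i (List.replicate (b i) 1) (fun j => P j ++ List.replicate (c j) 0 ++ Q j) i =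
            List.replicate (c i) 0 ++ List.replicate (b i) 1 ++ List.replicate (c (i + 1)) 0 := by
        intro c
        unfold mrg
        rw [if_neg (lt_irrefl i), if_pos rfl]
        simp [P, Q]
      have e1 : asm k (mrg i (List.replicate (b i) 1)
          (fun j => P j ++ List.replicate (spl i a j) 0 ++ Q j)) = w2 k a b e := by
        unfold w2
        apply asm_congr
        intro j _
        by_cases hj : j = i
        · subst hj
          rw [hblki]
          unfold bl spl
          rw [he]
          simp
        · rw [hblk _ j hj]
          congr 1
          unfold spl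
          by_cases h1 : j < i
          · rw [if_pos h1, if_pos (by omega)]
          · rw [if_neg h1, if_neg (by omega), if_neg (by omega), Nat.add_sub_cancel]
      rw [e1] at h2
      -- the second word
      set C : ℕ → List ℕ := mrg i (List.replicate (b i) 1)
        (fun j => P j ++ List.replicate (a'' j) 0 ++ Q j) with hC
      have hCi : C i = List.replicate (a'' i) 0 ++ List.replicate (b i) 1 ++
          List.replicate (a'' (i + 1)) 0 := hblki a''
      have hCj : ∀ j, j ≠ i → C j = bl (if j < i then a'' j else a'' (j + 1)) (b j) (e j) :=
        fun j hj => hblk a'' j hj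
      have hc0 : ∀ j, (C j).count 0 = fv6_st i a'' j := by
        intro j
        by_cases hj : j = i
        · subst hj
          rw [hCi]
          unfold fv6_st
          simp [List.count_replicate]
        · rw [hCj j hj, fv6_bl_c0]
          unfold fv6_st
          by_cases h1 : j < i
          · rw [if_pos h1, if_pos h1]
          · rw [if_neg h1, if_neg h1, if_neg hj]
      have hc1 : ∀ j, (C j).count 1 = b j := by
        intro j
        by_cases hj : j = i
        · subst hj
          rw [hCi]
          simp [List.count_replicate]
        · rw [hCj j hj, fv6_bl_c1]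
      have hc0' : (fun j => (C j).count 0) = fv6_st i a'' := funext hc0
      have hc1' : (fun j => (C j).count 1) = b := funext hc1
      have h3 := hGLV ρ hρ.1 k C (flp e i) (by
          intro j _ c hc
          by_cases hj : j = i
          · subst hj
            rw [hCi] at hc
            simp only [List.mem_append, List.mem_replicate] at hc
            rcases hc with (h | h) | h
            · exact Or.inl h.2
            · exact Or.inr h.2
            · exact Or.inl h.2
          · rw [hCj j hj] at hc
            exact fv6_bl_mem hc)
        (by rw [hc0', fv6_deg i a'' k hi]; exact ha'')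
        (by rw [hc1']; exact hb)
        (by
          intro j _ h0 h1
          by_cases hj : j = i
          · subst hj
            have hf : flp e j j = true := by
              unfold flp
              rw [if_pos rfl, he]
              rfl
            rw [hf, hCi]
            obtain ⟨q', hq'⟩ := Nat.exists_eq_succ_of_ne_zero (by omega : a'' (j + 1) ≠ 0)
            rw [hq', List.replicate_succ' (n := q'), ← List.append_assoc, List.getLast?_concat]
            simp
          · have hf : flp e i j = e j := by
              unfold flp
              rw [if_neg hj]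
            rw [hf]
            rw [hCj j hj] at h0 h1 ⊢
            exact fv6_bl_last _ _ _ h0 h1)
      rw [hc0', hc1'] at h3
      have h4 := fv6_tc hst.symm b (flp e i)
      exact ρ.trans h2 (ρ.trans h3 h4)
  intro e
  cases he : e i with
  | false => exact key e he
  | true =>
    have h1 : flp e i i = false := by simp [flp, he]
    have h2 := key (flp e i) h1
    have h3 : flp (flp e i) i = e := by
      funext j
      unfold flp
      by_cases h : j = i
      · subst h; simp
      · simp [h]
    unfold Ex at h2 ⊢
    rw [h3] at h2
    exact h2.symm

end Pool.Agent.MVO.H25
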