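import Pool.Agent.MVO.StmtsV

/-!
# Squad MVO, block V, row GVN (adapted from GTN of helper9)
-/

set_option autoImplicit false

namespace Pool.Agent.MVO.H25

open Pool.Agent.Helper14_MV Pool.Agent.Helper2_MV

theorem gvn : GvnStmt := by
  intro k i T hik _ hL a b hT hB
  obtain ⟨-, -, ha, hb⟩ := hL a b hT
  have h1 := gam_self (hB fun _ => false)
  have hQ : QV k i T (FreeMonoid.ofList (w2 k a b fun _ => false)) := by
    refine ⟨fun j => bl (a j) (b j) false, rfl, ?_, ?_, ?_⟩
    · intro j _ c hc
      simp only [bl, Bool.false_eq_true, if_false, List.mem_append, List.mem_replicate] at hc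
      omega
    · have e1 : (fun j => (bl (a j) (b j) false).count 0) = a := by
        funext j
        simp [bl, List.count_replicate]
      have e2 : (fun j => (bl (a j) (b j) false).count 1) = b := by
        funext j
        simp [bl, List.count_replicate]
      rw [e1, e2]
      exact hT
    · show (bl (a i) (b i) false).getLast? = some 1
      obtain ⟨n, hn⟩ : ∃ n, b i = n + 1 := ⟨b i - 1, by omega⟩
      rw [hn]
      simp [bl, List.replicate_succ']
  obtain ⟨B, hBW, hB01, -, hlast⟩ := h1.1 hQ
  have hns : ∀ c : ℕ, c = 0 ∨ c = 1 → NS k c := by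
    intro c hc h
    omega
  have hu : ∀ j ≤ k, bl (a j) (b j) (flp (fun _ => false) i j) = B j := by
    refine uniq (fun j _ c hc => hns c ?_) (fun j hj c hc => hns c (hB01 j hj c hc)) hBW
    unfold bl at hc
    split_ifs at hc <;> simp only [List.mem_append, List.mem_replicate] at hc <;> omega
  rw [← hu i hik] at hlast
  have h2 : (bl (a i) (b i) (flp (fun _ => false) i i)).getLast? = some 0 := by
    obtain ⟨n, hn⟩ : ∃ n, a i = n + 1 := ⟨a i - 1, by omega⟩
    rw [hn]
    simp [bl, flp, List.replicate_succ']
  have h3 := hlast.symm.trans h2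
  simp at h3

end Pool.Agent.MVO.H25
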